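import Pool.Agent.H589.Marg.Main

/-!
# Margulis' injectivity radius conjecture outside a sparse set of fields

Let `n` and `s` be fixed. We consider arithmetic groups `Γ` in all groups `G`, which are realized by
integral matrices of size `n` over a number field `k` of any degree `d`, with at most `s` noncompact
embeddings (`Pool.Agent.H225R3.Marg.Realization`): there is a homomorphism `r` from `Γ` to the `n` by
`n` matrices over the ring of integers of `k`, bounded under the embeddings outside `S`, such that
for `σ` in `S` the eigenvalues of `σ (r γ)` are eigenvalues of `ρ γ`, and such that only `1` is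
mapped to a unipotent matrix.

There is a set `E` of number fields, of degrees at least `16`, with at most
`exp (C m (log log m) ^ 2 / log m)`, i.e. `exp (o (m))`, members of every degree `m`, such that:

* for all torsion-free `Γ` over fields `k` of degree `d ≥ C` and all `γ ≠ 1` in `Γ`: either some
  eigenvalue of `ρ γ` is larger than `d ^ ((1 / 2 - ε) / (n s))`, so that the length of the
  closed geodesic of `γ` is at least a constant times `log d`, or the trace field of `γ` (the field
  generated by the coefficients of the characteristic polynomial of `r γ`) has index at most `s` in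
  `k` and belongs to `E`;

* the family of the torsion-free `Γ` over the fields `k`, of any degree, which have no subfield
  of index at most `s` that is isomorphic to a member of `E`, is uniformly discrete.

So the conjecture holds for the groups over these fields, the lengths of the closed geodesics even
tend to infinity with the degree of `k`. If `d > s` is a prime, these are all but `exp (o (d))` of
the (infinitely many) number fields of degree `d`.

Method. The characteristic polynomial of `r γ` has coefficients in the trace field `F` of `γ`. The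
product of its conjugates over `ℚ` is an integer polynomial of degree `n m`, `m = [F : ℚ]`. An
embedding of `F` contributes to its Mahler measure only if all its `[k : F]` extensions to `k` are
noncompact. So the measure is at most `L ^ (n s / [k : F])` if the eigenvalues of `ρ γ` are at most
`L`, and it is `1`, whence `γ = 1`, if `[k : F] > s`. By
`Pool.Agent.H589.Count.counting` (used also for `MP_7ab245_nt.FewSmallMeasures`) there are at most
`exp (o (m))` integer polynomials of degree at most `n m` and measure at most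
`(n m) ^ (1 / 2 - ε)`, and each of them has at most `(n m) ^ n` monic factors of degree `n`.
-/

set_option autoImplicit false

open NumberField Module Pool.Agent.H225R3.Marg

namespace Pool.Agent.Results.MP_162bbe_gt.FewExceptionalFields

universe u

section

variable {G : Type u} [Group G] {M : ℕ} {ρ : G →* Matrix (Fin M) (Fin M) ℂ} {Γ : Subgroup G}
  {k : Type} [Field k] [NumberField k] {n : ℕ} {S : Finset (k →+* ℂ)}

/-- The trace field of `γ`: the subfield of `k` generated by the coefficients of the characteristic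
polynomial of `r γ`. -/
def traceField (R : Realization ρ Γ k n S) (γ : Γ) : IntermediateField ℚ k :=
  IntermediateField.adjoin ℚ (Set.range fun i : ℕ => (((R.r γ).charpoly.coeff i : 𝓞 k) : k))

end

/-- The group is torsion-free. -/
def TorsionFree {G : Type u} [Group G] (Γ : Subgroup G) : Prop :=
  ∀ γ ∈ Γ, ∀ N : ℕ, 0 < N → γ ^ N = 1 → γ = 1

/-- The field `k` has no subfield of index at most `s` that is isomorphic to a member of `E`. -/
def Avoids (k : Type) [Field k] [NumberField k] (E : Set (IntermediateField ℚ ℂ)) (s : ℕ) : Prop :=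
  ∀ F : IntermediateField ℚ k, finrank F k ≤ s → ∀ σ : k →ₐ[ℚ] ℂ, F.map σ ∉ E

/-- The torsion-free groups with a realization of size `n`, with at most `s` noncompact embeddings,
over a field `k` that has no subfield of index at most `s` isomorphic to a member of `E`. -/
def Family (E : Set (IntermediateField ℚ ℂ)) (n s : ℕ) {G : Type u} [Group G] {M : ℕ}
    (ρ : G →* Matrix (Fin M) (Fin M) ℂ) : Set (Subgroup G) :=
  {Γ | TorsionFree Γ ∧ ∃ (k : Type) (_ : Field k) (_ : NumberField k) (S : Finset (k →+* ℂ))
    (_ : Realization ρ Γ k n S), S.card ≤ s ∧ Avoids k E s}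

theorem traceField_eq {G : Type u} [Group G] {M : ℕ} {ρ : G →* Matrix (Fin M) (Fin M) ℂ}
    {Γ : Subgroup G} {k : Type} [Field k] [NumberField k] {n : ℕ} {S : Finset (k →+* ℂ)}
    (R : Realization ρ Γ k n S) (γ : Γ) :
    traceField R γ = Pool.Agent.H589.Marg.tf (R.r γ) := by
  unfold traceField Pool.Agent.H589.Marg.tf Pool.Agent.H589.Marg.coeffField
  congr 1
  ext z
  simp only [Set.mem_range, Polynomial.coeff_map]

open Pool.Agent.H589.Marg in
theorem result (n s : ℕ) (hn : 0 < n) (ε : ℝ) (hε : 0 < ε) (hε2 : ε < 1 / 2) :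
    ∃ (C : ℝ) (E : Set (IntermediateField ℚ ℂ)),
    (∀ K ∈ E, 16 ≤ finrank ℚ K) ∧
    (∀ m : ℕ, 16 ≤ m → {K | K ∈ E ∧ finrank ℚ K = m}.Finite ∧
      ({K | K ∈ E ∧ finrank ℚ K = m}.ncard : ℝ) ≤
        Real.exp (C * m * Real.log (Real.log m) ^ 2 / Real.log m)) ∧
    (∀ (G : Type u) [Group G] (M : ℕ) (ρ : G →* Matrix (Fin M) (Fin M) ℂ) (Γ : Subgroup G)
      (k : Type) [Field k] [NumberField k] (S : Finset (k →+* ℂ)) (R : Realization ρ Γ k n S),
      S.card ≤ s → TorsionFree Γ → C ≤ finrank ℚ k → ∀ γ : Γ, γ ≠ 1 →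
      (∃ l : ℂ, IsEig (ρ γ) l ∧ (finrank ℚ k : ℝ) ^ ((1 / 2 - ε) / (n * s)) < ‖l‖) ∨
      (finrank (traceField R γ) k ≤ s ∧ ∀ σ : k →ₐ[ℚ] ℂ, (traceField R γ).map σ ∈ E)) ∧
    (∀ (G : Type u) [Group G] [TopologicalSpace G] (M : ℕ) (ρ : G →* Matrix (Fin M) (Fin M) ℂ),
      Continuous ρ → UniformlyDiscrete (Family E n s ρ)) := by
  obtain ⟨C₀, hC₀⟩ := exc_count n hn ε hε
  have hη : 0 < 1 / 2 - ε := by linarith
  refine ⟨max C₀ (16 * s), Exc n ε, fun K hK => hK.1, fun m hm => ⟨(exc_card n m ε).1, ?_⟩, ?_, ?_⟩
  · refine (hC₀ m hm).trans (Real.exp_le_exp.mpr ?_)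
    have hm' : (16 : ℝ) ≤ m := by exact_mod_cast hm
    have h1 : 0 ≤ (m : ℝ) * Real.log (Real.log m) ^ 2 / Real.log m := by
      have : 0 < Real.log m := Real.log_pos (by linarith)
      positivity
    calc C₀ * m * Real.log (Real.log m) ^ 2 / Real.log m
        = C₀ * (m * Real.log (Real.log m) ^ 2 / Real.log m) := by ring
      _ ≤ max C₀ (16 * s) * (m * Real.log (Real.log m) ^ 2 / Real.log m) :=
          mul_le_mul_of_nonneg_right (le_max_left _ _) h1
      _ = _ := by ring
  · intro G _ M ρ Γ k _ _ S R hS htf hC γ hγ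
    by_cases hlong : ∃ l : ℂ, IsEig (ρ γ) l ∧ (finrank ℚ k : ℝ) ^ ((1 / 2 - ε) / (n * s)) < ‖l‖
    · exact Or.inl hlong
    · right
      push Not at hlong
      have hd1 : (1 : ℝ) ≤ finrank ℚ k := by exact_mod_cast (finrank_pos : 0 < finrank ℚ k)
      obtain ⟨F, hF, hdeg, hM, hd, hM1⟩ := step R htf γ hγ _
        (Real.one_le_rpow hd1 (by positivity)) hlong
      rw [traceField_eq]
      set e := finrank (tf (R.r γ)) k with he
      have he1 : 1 ≤ e := finrank_pos
      have hs0 : 0 < s := lt_of_lt_of_le (Finset.card_pos.mpr R.nonempty) hS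
      have hes : e ≤ S.card := by
        by_contra hcon
        push Not at hcon
        rw [Nat.div_eq_of_lt hcon, Nat.mul_zero, pow_zero] at hM
        exact absurd hM (not_le.mpr hM1)
      have hmul : finrank ℚ (tf (R.r γ)) * e = finrank ℚ k := finrank_mul_finrank ℚ _ k
      have hm : 16 ≤ finrank ℚ (tf (R.r γ)) := by
        have h1 : (16 : ℝ) * s ≤ finrank ℚ k := (le_max_right _ _).trans hC
        have h2 : 16 * s ≤ finrank ℚ k := by exact_mod_cast h1
        have h3 : finrank ℚ k ≤ finrank ℚ (tf (R.r γ)) * s := by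
          rw [← hmul]; exact Nat.mul_le_mul_left _ (hes.trans hS)
        exact Nat.le_of_mul_le_mul_right (h2.trans h3) hs0
      refine ⟨hes.trans hS, fun σ => mem_exc (R.r γ) ε F hF hdeg (hM.trans ?_) hd hm σ⟩
      exact rpow_ineq n s _ e _ _ S.card hn hm he1 rfl hS hs0 hmul _ hη
  · intro G _ _ M ρ hρ
    obtain ⟨t, ht, hgap⟩ := gap_bounded (n * 16)
    have ht2 : (1 : ℝ) < min t ((16 : ℝ) ^ (1 / 2 - ε)) :=
      lt_min ht (Real.one_lt_rpow (by norm_num) hη)
    obtain ⟨δ, hδ, hδt⟩ := exists_delta (n * s) _ ht2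
    refine ⟨_, nhd ρ hρ δ hδ, ?_⟩
    rintro Γ ⟨htf, k, _, _, S, R, hS, hav⟩ g u hu hΓ
    by_contra hne
    set γ : Γ := ⟨g * u * g⁻¹, hΓ⟩ with hγdef
    have hγ : γ ≠ 1 := fun h => hne (congrArg Subtype.val h)
    have hL : ∀ l : ℂ, IsEig (ρ γ) l → ‖l‖ ≤ 1 + δ := by
      intro l hl
      have h2 : (ρ (γ : G)).charpoly = (ρ u).charpoly := by
        rw [hγdef]
        change (ρ (g * u * g⁻¹)).charpoly = (ρ u).charpoly
        rw [map_mul, map_mul]
        have h4 : ρ g⁻¹ * ρ g = 1 := by rw [← map_mul, inv_mul_cancel, map_one]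
        rw [Matrix.charpoly_mul_comm, ← mul_assoc, h4, one_mul]
      rw [IsEig, h2] at hl
      have h3 := close_eig (ρ u) δ hδ hu l hl
      have h5 : ‖l‖ ≤ ‖l - 1‖ + ‖(1 : ℂ)‖ := by
        have := norm_add_le (l - 1) 1
        rwa [sub_add_cancel] at this
      rw [norm_one] at h5
      linarith
    obtain ⟨F, hF, hdeg, hM, hd, hM1⟩ := step R htf γ hγ (1 + δ) (by linarith) hL
    have hM2 : (F.map (Int.castRingHom ℂ)).mahlerMeasure < min t ((16 : ℝ) ^ (1 / 2 - ε)) := by
      refine (hM.trans (pow_le_pow_right₀ (by linarith) ?_)).trans_lt hδt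
      exact Nat.mul_le_mul_left _ ((Nat.div_le_self _ _).trans hS)
    rcases Nat.lt_or_ge (finrank ℚ (tf (R.r γ))) 16 with hm | hm
    · have h1 := hgap F hF.ne_zero (by rw [hdeg]; exact Nat.mul_le_mul_left _ hm.le)
        (hM2.trans_le (min_le_left _ _))
      exact absurd h1 (not_le.mpr hM1)
    · have hes : finrank (tf (R.r γ)) k ≤ S.card := by
        by_contra hcon
        push Not at hcon
        rw [Nat.div_eq_of_lt hcon, Nat.mul_zero, pow_zero] at hM
        exact absurd hM (not_le.mpr hM1)
      obtain ⟨σ₀, _⟩ := R.nonempty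
      have σ : k →ₐ[ℚ] ℂ := RingHom.equivRatAlgHom k ℂ σ₀
      refine hav (tf (R.r γ)) (hes.trans hS) σ
        (mem_exc (R.r γ) ε F hF hdeg ((hM2.trans_le (min_le_right _ _)).le.trans ?_) hd hm σ)
      refine Real.rpow_le_rpow (by norm_num) ?_ hη.le
      have : 16 ≤ n * finrank ℚ (tf (R.r γ)) := hm.trans (Nat.le_mul_of_pos_left _ hn)
      exact_mod_cast this

end Pool.Agent.Results.MP_162bbe_gt.FewExceptionalFields
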